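import Pool.Agent.Work.MP_73831e_pr.Basic

/-!
FIXED DEFINITIONS for the full negative answer of MP_73831e_pr (folder F).

Throughout `k = m + 1` colours (`m ≥ 2`); in the gadget part `m = l + 1`, so `k = l + 1 + 1`, `l ≥ 1`.
All graphs are given by edge sets `E : Finset (Pr n)` on the vertex set `Fin n`.
-/

open Finset
open scoped Classical Nat

namespace Pool.Agent.Work.MP_73831e_pr.F

noncomputable section

/-! ### Abstract part -/

section Abstract

variable {P : Type} [Fintype P]

/-- Probability of an event for a uniformly random ordering of `P`. -/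
def prob (A : Ordr P → Prop) : ℝ :=
  (Nat.card {ω : Ordr P // A ω} : ℝ) / ((Fintype.card P)! : ℝ)

/-- Probability that the process passes through `E` and continues with `x` (any fixed `x ∉ E`). -/
def wf (E : Finset P) : ℝ := (wt E : ℝ) / ((Fintype.card P)! : ℝ)

/-- Probability of `E` in the model: choose `t ∈ {0, ..., |P|}` uniformly, then a uniformly random
`t`-element subset of `P`. -/
def nu (E : Finset P) : ℝ :=
  ((E.card)! : ℝ) * ((Fintype.card P - E.card)! : ℝ) / ((Fintype.card P + 1)! : ℝ)

/-- Total `wf`-weight of the pairs `(E, x)` with `x ∉ E` satisfying `B`. -/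
def Wf (B : Finset P → P → Prop) : ℝ :=
  ∑ E : Finset P, ∑ _x ∈ univ.filter (fun x => x ∉ E ∧ B E x), wf E

end Abstract

/-! ### Graph part -/

variable {n m l : ℕ}

/-- The star at `x`: all pairs containing `x`. -/
def st (x : Fin n) : Finset (Pr n) := univ.filter (fun e : Pr n => x ∈ e.1)

/-- The neighbours of `x` in the graph with edge set `E`. -/
def nb (E : Finset (Pr n)) (x : Fin n) : Finset (Fin n) := univ.filter (fun y => (gr E).Adj x y)

/-- The degree of `x`. -/
def dg (E : Finset (Pr n)) (x : Fin n) : ℕ := (nb E x).card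

/-- Number of ordered triangles. -/
def tri (E : Finset (Pr n)) : ℕ :=
  (univ.filter (fun z : Fin n × Fin n × Fin n =>
    (gr E).Adj z.1 z.2.1 ∧ (gr E).Adj z.2.1 z.2.2 ∧ (gr E).Adj z.2.2 z.1)).card

/-- `(m+1)`-colourable, and no uniquely `(m+1)`-colourable subgraph on at least `M` vertices. -/
def Fa (m M : ℕ) (E : Finset (Pr n)) : Prop :=
  Alive (m + 1) (gr E) ∧ ¬ Um (m + 1) M (gr E)

/-- `f` is constant on each of the sets `C i`, with pairwise distinct values. -/
def Cst (C : Fin m → Finset (Fin n)) (f : Fin n → Fin (m + 1)) : Prop :=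
  ∃ π : Equiv.Perm (Fin (m + 1)), ∀ i : Fin m, ∀ v ∈ C i, f v = π i.castSucc

/-- All sets of the family have at least `n / K` elements. -/
def Big (K : ℕ) (C : Fin m → Finset (Fin n)) : Prop := ∀ i, n ≤ K * (C i).card

/-- The proper `(m+1)`-colourings of `E` form at most `R` clusters: there are `R` big families such
that every proper colouring is constant (with distinct values) on one of them. -/
def Clu (m R K : ℕ) (E : Finset (Pr n)) : Prop :=
  ∃ C : Fin R → Fin m → Finset (Fin n), (∀ r, Big K (C r)) ∧
    ∀ f, PC (m + 1) (gr E) f → ∃ r, Cst (C r) f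

/-- The tuple `v` is quasi-rainbow: there is one big family such that every proper
`(m+1)`-colouring is injective on the tuple or constant on the family. -/
def QR (m K : ℕ) {j : ℕ} (E : Finset (Pr n)) (v : Fin j → Fin n) : Prop :=
  ∃ C : Fin m → Finset (Fin n), Big K C ∧
    ∀ f, PC (m + 1) (gr E) f → Function.Injective (fun i => f (v i)) ∨ Cst C f

/-- Many quasi-rainbow `m`-tuples. -/
def MQ (m K B : ℕ) (E : Finset (Pr n)) : Prop :=
  n ^ m ≤ B * (univ.filter (fun v : Fin m → Fin n => QR m K E v)).card

/-- Typical graphs (a decreasing property). -/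
structure Ty (K₁ K₃ K₄ L : ℕ) (E : Finset (Pr n)) : Prop where
  sp : Sparse (n / K₁) (gr E)
  deg : DegOK (4 * K₁) K₃ (gr E)
  many : ManyIso K₄ (gr E)
  tri : tri E ≤ L

/-- Success: at some time the graph is not `(m+1)`-colourable and has no uniquely
`(m+1)`-colourable subgraph on at least `M` vertices. -/
def Suc (m M : ℕ) (ω : Ordr (Pr n)) : Prop :=
  ∃ t, ¬ Alive (m + 1) (gr (pre ω t)) ∧ ¬ Um (m + 1) M (gr (pre ω t))

/-! ### Neutral gadgets -/

/-- Configurations of gadgets indexed by `J`.  Gadget `j` is a triangle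
`(c j 0).1, (c j 1).1, (c j 2).1`, and `(c j a).1` is also joined to the `l` vertices
`(c j a).2 i`. -/
abbrev Cg (J : Type) (l n : ℕ) := J → Fin 3 → Fin n × (Fin l → Fin n)

/-- The edges of the gadgets of a configuration. -/
def gadN {J : Type} {l n : ℕ} (c : Cg J l n) : Finset (Pr n) :=
  univ.filter (fun e : Pr n => (∃ j a b, e.1 = s((c j a).1, (c j b).1)) ∨
    ∃ j a i, e.1 = s((c j a).1, (c j a).2 i))

/-- Good configurations for `G`: the new vertices are distinct and isolated in `G`, all
attachments are different from all new vertices, and the attachments of each new vertex are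
distinct. -/
structure Gd {J : Type} {l n : ℕ} (G : SimpleGraph (Fin n)) (c : Cg J l n) : Prop where
  iso : ∀ j a, iso G (c j a).1
  inj : ∀ j a j' a', (c j a).1 = (c j' a').1 → j = j' ∧ a = a'
  off : ∀ j a i j' a', (c j a).2 i ≠ (c j' a').1
  ainj : ∀ j a, Function.Injective (c j a).2

/-- Number of gadget edges (and exponent of the number of configurations). -/
def gs (J : Type) [Fintype J] (l : ℕ) : ℕ := 3 * Fintype.card J * (l + 1)

/-- The good configurations which kill `(l+2)`-colourability. -/
def Kil (J : Type) [Fintype J] (l : ℕ) {n : ℕ} (E : Finset (Pr n)) : Finset (Cg J l n) :=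
  univ.filter (fun c => Gd (gr E) c ∧ ¬ Alive (l + 1 + 1) (gr (E ∪ gadN c)))

/-- A positive fraction `≥ 1/Γ` of all configurations is good and kills. -/
def KF (J : Type) [Fintype J] (l Γ : ℕ) {n : ℕ} (E : Finset (Pr n)) : Prop :=
  n ^ gs J l ≤ Γ * (Kil J l E).card

/-! ### Constants -/

/-- The constants `C` (final time `C n`), `K₁`, `K₃`, `K₄` are such that the process at time `C n`
is typical with probability `≥ 1 - ε` (for every `ε`, with some bound `L` for the triangles), and
deleting the star at one vertex does not make it `(m+1)`-colourable. -/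
def Typical (m C K₁ K₃ K₄ : ℕ) : Prop :=
  1 ≤ C ∧ 1 ≤ K₁ ∧ 4 * K₁ ≤ K₃ ∧ 1 ≤ K₄ ∧ ∀ ε : ℝ, 0 < ε → ∃ L n₀ : ℕ, ∀ n ≥ n₀,
    prob (fun ω : Ordr (Pr n) => ¬ (Ty K₁ K₃ K₄ L (pre ω (C * n)) ∧
      ∀ x, ¬ Alive (m + 1) (gr (pre ω (C * n) \ st x)))) ≤ ε

end

end Pool.Agent.Work.MP_73831e_pr.F
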