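import Pool.Agent.Work.MP_73831e_pr.F.Defs

/-!
FIXED DEFINITIONS for the blocks S1-S5 (folder F): fully critical vertices and masses.
-/

open Finset
open scoped Classical Nat

namespace Pool.Agent.Work.MP_73831e_pr.F

noncomputable section

variable {n : ℕ}

/-- `x` is fully critical for `D`: `D` is not in `Fa`, `x` is not isolated, and deleting any edge at
`x` gives a graph in `Fa`. -/
def FC (m M : ℕ) (D : Finset (Pr n)) (x : Fin n) : Prop :=
  ¬ Fa m M D ∧ (nb D x).Nonempty ∧ ∀ e ∈ D, x ∈ e.1 → Fa m M (D.erase e)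

/-- `n` times the `nu`-mass of the pairs `(D, x)`, `|D| ≤ T`, `x` fully critical, with `Q D x`. -/
def mass (m M T : ℕ) (Q : Finset (Pr n) → Fin n → Prop) : ℝ :=
  n * ∑ D ∈ univ.filter (fun D : Finset (Pr n) => D.card ≤ T),
    nu D * ((univ.filter (fun x => FC m M D x ∧ Q D x)).card : ℝ)

/-- `n` times the `nu`-mass of the pairs `(D, x)`, `|D| ≤ T`, `D` not in `Fa`, `D` minus the star at
`x` in `Fa`, with `Q D x`. -/
def smass (m M T : ℕ) (Q : Finset (Pr n) → Fin n → Prop) : ℝ :=
  n * ∑ D ∈ univ.filter (fun D : Finset (Pr n) => D.card ≤ T),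
    nu D * ((univ.filter (fun x => Fa m M (D \ st x) ∧ ¬ Fa m M D ∧ Q D x)).card : ℝ)

/-- `Q` is preserved when edges at `x` are deleted. -/
def Hered (Q : Finset (Pr n) → Fin n → Prop) : Prop :=
  ∀ D A x, A ⊆ D → D \ st x ⊆ A → Q D x → Q A x

/-- Degree of `x` at most `K`, at most `h` neighbours with degree larger than `K'`. -/
def Qh (K K' h : ℕ) (D : Finset (Pr n)) (x : Fin n) : Prop :=
  dg D x ≤ K ∧ ((nb D x).filter (fun t => K' < dg D t)).card ≤ h

/-- Degree of `x` at most `j`, all neighbours have degree at most `K'`. -/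
def Ql (j K' : ℕ) (D : Finset (Pr n)) (x : Fin n) : Prop :=
  dg D x ≤ j ∧ ∀ t ∈ nb D x, dg D t ≤ K'

/-- The negligible probability: the process is not typical at time `C n`, or meets a graph in `Fa`
whose colourings form at most `R` clusters. -/
def err (m M C K₁ K₃ K₄ L R K n : ℕ) : ℝ :=
  prob (fun ω : Ordr (Pr n) => ¬ Ty K₁ K₃ K₄ L (pre ω (C * n))) +
    prob (fun ω : Ordr (Pr n) => ∃ t ≤ C * n, Fa m M (pre ω t) ∧ Clu m R K (pre ω t))

end

end Pool.Agent.Work.MP_73831e_pr.F
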